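import Pool.Agent.Q299.CF.DOM

/-!
# Project CF, job DED: `RF` and `BQ` are Dedekind domains, their proper quotients are finite-dimensional
-/

set_option autoImplicit false

namespace Pool.Agent.Q299.CF.DED

open Polynomial Pool.Agent.Q7.CF Pool.Agent.Q299.CF.DOM

set_option linter.unusedSectionVars false

/-! ## General facts -/

/-- quotients of a domain which is finite over `L[X]` -/
theorem fd (L B : Type) [Field L] [CommRing B] [IsDomain B] [Algebra L B] [Algebra L[X] B] [IsScalarTower L L[X] B]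
    [Module.Finite L[X] B] (I : Ideal B) (hI : I ≠ ⊥) : FiniteDimensional L (B ⧸ I) := by
  obtain ⟨g, hg0, hg⟩ : ∃ g : L[X], g ≠ 0 ∧ algebraMap L[X] B g ∈ I := by
    have h : I.comap (algebraMap L[X] B) ≠ ⊥ := fun h => hI (Ideal.eq_bot_of_comap_eq_bot h)
    obtain ⟨g, hg, h0⟩ := Submodule.exists_mem_ne_zero_of_ne_bot h
    exact ⟨g, h0, hg⟩
  let φ : L[X] ⧸ Ideal.span {g} →+* B ⧸ I := Ideal.Quotient.lift _ (algebraMap L[X] (B ⧸ I)) (by
    intro a ha
    obtain ⟨c, rfl⟩ := Ideal.mem_span_singleton.1 ha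
    rw [map_mul]
    have : algebraMap L[X] (B ⧸ I) g = 0 := by
      rw [IsScalarTower.algebraMap_apply L[X] B (B ⧸ I)]
      exact Ideal.Quotient.eq_zero_iff_mem.2 hg
    rw [this, zero_mul])
  have hφ : ∀ a : L[X], φ (Ideal.Quotient.mk _ a) = algebraMap L[X] (B ⧸ I) a := fun a => rfl
  let : Algebra (L[X] ⧸ Ideal.span {g}) (B ⧸ I) := φ.toAlgebra
  have : IsScalarTower L[X] (L[X] ⧸ Ideal.span {g}) (B ⧸ I) := IsScalarTower.of_algebraMap_eq fun a => by
    change _ = φ _
    exact (hφ a).symm
  have : IsScalarTower L (L[X] ⧸ Ideal.span {g}) (B ⧸ I) := IsScalarTower.of_algebraMap_eq fun a => by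
    change _ = φ _
    have h1 : algebraMap L (L[X] ⧸ Ideal.span {g}) a = Ideal.Quotient.mk _ (C a) := rfl
    rw [h1, hφ]
    exact IsScalarTower.algebraMap_apply L L[X] (B ⧸ I) a
  have : Module.Finite L (L[X] ⧸ Ideal.span {g}) := (AdjoinRoot.powerBasis hg0).finite
  have : Module.Finite L[X] (B ⧸ I) := Module.Finite.of_surjective (Ideal.Quotient.mkₐ L[X] I).toLinearMap
    Ideal.Quotient.mk_surjective
  have : Module.Finite (L[X] ⧸ Ideal.span {g}) (B ⧸ I) := Module.Finite.of_restrictScalars_finite L[X] _ _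
  exact Module.Finite.trans (L[X] ⧸ Ideal.span {g}) (B ⧸ I)

/-- the dimension is at most one -/
theorem dim1 (L B : Type) [Field L] [CommRing B] [IsDomain B] [Algebra L B] [Algebra L[X] B] [IsScalarTower L L[X] B]
    [Module.Finite L[X] B] : Ring.DimensionLEOne B := by
  refine ⟨fun {P} hP hprime => ?_⟩
  have h1 := fd L B P hP
  have h2 : IsDomain (B ⧸ P) := inferInstance
  have h3 : IsField (B ⧸ P) := isField_of_isIntegral_of_isField' (R := L) (Field.toIsField L)
  exact Ideal.Quotient.maximal_of_isField P h3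

/-! ## The Fermat curve -/

section

variable (p : ℕ) [Fact p.Prime] {L : Type} [Field L]

instance instFinite (D : L) : Module.Finite L[X] (RF p D) := (fF_monic p D).finite_adjoinRoot

variable [CharZero L]

theorem rhs_sqf (D : L) (hD : D ≠ 0) : Squarefree (C D - X ^ p : L[X]) := by
  have h : (C D - X ^ p : L[X]) = - (X ^ p - C D) := by ring
  have h2 : (X ^ p - C D : L[X]).Separable :=
    separable_X_pow_sub_C D (Nat.cast_ne_zero.2 (Fact.out (p := p.Prime)).ne_zero) hD
  rw [h]
  intro a ha
  exact h2.squarefree a ((dvd_neg).1 ha)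

theorem rhs_natDegree (D : L) : (C D - X ^ p : L[X]).natDegree = p := by
  have h : (C D - X ^ p : L[X]) = - (X ^ p - C D) := by ring
  rw [h, natDegree_neg, natDegree_X_pow_sub_C]

theorem rhs_ne (D : L) : (C D - X ^ p : L[X]) ≠ 0 := by
  intro h
  have h1 := rhs_natDegree p D
  rw [h, natDegree_zero] at h1
  exact (Fact.out (p := p.Prime)).ne_zero h1.symm

theorem fF_irr (D : L) (hD : D ≠ 0) : Irreducible (fF p D) := by
  have hp := (Fact.out (p := p.Prime))
  rw [(fF_monic p D).irreducible_iff_irreducible_map_fraction_map (K := FractionRing L[X])]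
  have h1 : (fF p D).map (algebraMap L[X] (FractionRing L[X])) =
      X ^ p - C (algebraMap L[X] (FractionRing L[X]) (C D - X ^ p)) := by
    unfold fF
    rw [Polynomial.map_sub, Polynomial.map_pow, map_X, map_C]
  rw [h1]
  refine X_pow_sub_C_irreducible_of_prime hp ?_
  intro b hb
  have hint : IsIntegral L[X] b := by
    refine IsIntegral.of_pow hp.pos ?_
    rw [hb]
    exact isIntegral_algebraMap
  obtain ⟨c, hc⟩ := IsIntegrallyClosed.isIntegral_iff.1 hint
  rw [← hc, ← map_pow] at hb
  have h2 := IsFractionRing.injective L[X] (FractionRing L[X]) hb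
  have h3 : IsUnit c := by
    refine rhs_sqf p D hD c ?_
    rw [← h2, ← pow_two]
    exact pow_dvd_pow c hp.two_le
  have h4 := congrArg natDegree h2
  rw [natDegree_pow, rhs_natDegree, natDegree_eq_zero_of_isUnit h3, mul_zero] at h4
  exact hp.ne_zero h4.symm

theorem rf_domain (D : L) (hD : D ≠ 0) : IsDomain (RF p D) :=
  AdjoinRoot.isDomain_of_prime ((fF_irr p D hD).prime)

/-- the field of functions -/
abbrev EE (D : L) : Type := AdjoinRoot ((fF p D).map (algebraMap L[X] (FractionRing L[X])))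

theorem fF_map (D : L) : (fF p D).map (algebraMap L[X] (FractionRing L[X])) =
    X ^ p - C (algebraMap L[X] (FractionRing L[X]) (C D - X ^ p)) := by
  unfold fF
  rw [Polynomial.map_sub, Polynomial.map_pow, map_X, map_C]

theorem irr_map (D : L) (hD : D ≠ 0) : Irreducible ((fF p D).map (algebraMap L[X] (FractionRing L[X]))) :=
  ((fF_monic p D).irreducible_iff_irreducible_map_fraction_map (K := FractionRing L[X])).1 (fF_irr p D hD)

theorem fFm_monic (D : L) : ((fF p D).map (algebraMap L[X] (FractionRing L[X]))).Monic := (fF_monic p D).map _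

theorem fF_coeff_zero (D : L) : (fF p D).coeff 0 = - (C D - X ^ p) := by
  unfold fF
  rw [coeff_sub, coeff_C_zero, coeff_X_pow, if_neg (Fact.out (p := p.Prime)).ne_zero.symm, zero_sub]

theorem fF_coeff (D : L) (n : ℕ) (h0 : n ≠ 0) (hn : n < p) : (fF p D).coeff n = 0 := by
  unfold fF
  rw [coeff_sub, coeff_C_of_ne_zero h0, coeff_X_pow, if_neg hn.ne, sub_zero]

theorem eis (D : L) (π ρ : L[X]) (h1 : C D - X ^ p = π * ρ) (hπ : Prime π) (h2 : ¬ π ∣ ρ) :
    (fF p D).IsEisensteinAt (Ideal.span {π}) := by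
  refine ⟨?_, ?_, ?_⟩
  · rw [(fF_monic p D).leadingCoeff, Ideal.mem_span_singleton]
    exact fun h => hπ.not_isUnit (isUnit_of_dvd_one h)
  · intro n hn
    rw [fF_natDegree] at hn
    rcases eq_or_ne n 0 with rfl | h0
    · rw [fF_coeff_zero, h1, Ideal.neg_mem_iff, Ideal.mem_span_singleton]
      exact dvd_mul_right _ _
    · rw [fF_coeff p D n h0 hn]
      exact Ideal.zero_mem _
  · rw [fF_coeff_zero, h1, Ideal.neg_mem_iff, Ideal.span_singleton_pow, Ideal.mem_span_singleton, pow_two]
    intro h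
    exact h2 ((mul_dvd_mul_iff_left hπ.ne_zero).1 h)

theorem eis' (D : L) (hD : D ≠ 0) (π : L[X]) (hπ : Prime π) (h1 : π ∣ C D - X ^ p) :
    (fF p D).IsEisensteinAt (Ideal.span {π}) := by
  obtain ⟨ρ, hρ⟩ := h1
  refine eis p D π ρ hρ hπ ?_
  rintro ⟨c, rfl⟩
  refine hπ.not_isUnit (rhs_sqf p D hD π ?_)
  exact ⟨c, by rw [hρ]; ring⟩

section

variable (D : L) [Fact (Irreducible ((fF p D).map (algebraMap L[X] (FractionRing L[X]))))]

/-- the power basis -/
noncomputable def pb : PowerBasis (FractionRing L[X]) (EE p D) := AdjoinRoot.powerBasis (fFm_monic p D).ne_zero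

theorem pb_gen : (pb p D).gen = AdjoinRoot.root _ := rfl

theorem pb_dim : (pb p D).dim = p := by
  have h : (pb p D).dim = ((fF p D).map (algebraMap L[X] (FractionRing L[X]))).natDegree := rfl
  rw [h, (fF_monic p D).natDegree_map, fF_natDegree]

instance instFin : FiniteDimensional (FractionRing L[X]) (EE p D) := (pb p D).finite

theorem minpoly_gen : minpoly (FractionRing L[X]) (pb p D).gen =
    (fF p D).map (algebraMap L[X] (FractionRing L[X])) := by
  rw [pb_gen, AdjoinRoot.minpoly_root (fFm_monic p D).ne_zero, (fFm_monic p D).leadingCoeff, inv_one, C_1, mul_one]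

theorem int_gen : IsIntegral L[X] (pb p D).gen := by
  refine ⟨fF p D, fF_monic p D, ?_⟩
  rw [pb_gen, IsScalarTower.algebraMap_eq L[X] (FractionRing L[X]) (EE p D), ← eval₂_map]
  exact AdjoinRoot.eval₂_root _

theorem minpoly_gen' : minpoly L[X] (pb p D).gen = fF p D := by
  have h := minpoly.isIntegrallyClosed_eq_field_fractions' (FractionRing L[X]) (int_gen p D)
  rw [minpoly_gen] at h
  exact (Polynomial.map_injective _ (IsFractionRing.injective L[X] (FractionRing L[X])) h).symm

instance instCZ : CharZero (FractionRing L[X]) :=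
  charZero_of_injective_algebraMap (R := L[X]) (IsFractionRing.injective L[X] (FractionRing L[X]))

instance instCZE : CharZero (EE p D) :=
  charZero_of_injective_algebraMap (R := FractionRing L[X]) (algebraMap (FractionRing L[X]) (EE p D)).injective

theorem norm_gen : Algebra.norm (FractionRing L[X]) (pb p D).gen =
    (-1) ^ p * - algebraMap L[X] (FractionRing L[X]) (C D - X ^ p) := by
  rw [Algebra.PowerBasis.norm_gen_eq_coeff_zero_minpoly, minpoly_gen, coeff_map, fF_coeff_zero, pb_dim, map_neg]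

/-- the discriminant is, up to a nonzero constant, a power of `D - X^p` -/
theorem discr_eq : ∃ c : L, c ≠ 0 ∧ Algebra.discr (FractionRing L[X]) (pb p D).basis =
    algebraMap L[X] (FractionRing L[X]) (C c * (C D - X ^ p) ^ (p - 1)) := by
  have h1 : aeval (pb p D).gen (minpoly (FractionRing L[X]) (pb p D).gen).derivative =
      algebraMap (FractionRing L[X]) (EE p D) (p : FractionRing L[X]) * (pb p D).gen ^ (p - 1) := by
    have h2 : derivative ((fF p D).map (algebraMap L[X] (FractionRing L[X]))) =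
        C (p : FractionRing L[X]) * X ^ (p - 1) := by
      rw [fF_map, derivative_sub, derivative_X_pow, derivative_C, sub_zero]
    rw [minpoly_gen, h2, map_mul, map_pow, aeval_X, aeval_C]
  have hfr : Module.finrank (FractionRing L[X]) (EE p D) = p := by
    rw [(pb p D).finrank, pb_dim]
  rw [Algebra.discr_powerBasis_eq_norm, h1, map_mul, map_pow, Algebra.norm_algebraMap, hfr, norm_gen, mul_pow,
    neg_pow (algebraMap L[X] (FractionRing L[X]) (C D - X ^ p)) (p - 1)]
  refine ⟨(-1) ^ (p * (p - 1) / 2) * ((p : L) ^ p * (((-1) ^ p) ^ (p - 1) * (-1) ^ (p - 1))), ?_, ?_⟩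
  · have : (p : L) ≠ 0 := Nat.cast_ne_zero.2 (Fact.out (p := p.Prime)).ne_zero
    have h3 : (-1 : L) ≠ 0 := neg_ne_zero.2 one_ne_zero
    exact mul_ne_zero (pow_ne_zero _ h3) (mul_ne_zero (pow_ne_zero _ this) (mul_ne_zero (pow_ne_zero _ (pow_ne_zero _ h3)) (pow_ne_zero _ h3)))
  · simp only [map_mul, map_pow, map_neg, map_one, map_natCast, mul_assoc]

/-- cancelling the prime factors of `D - X^p` -/
theorem cancel (hD : D ≠ 0) (g : L[X]) (hg : g ≠ 0) : (∀ π : L[X], Prime π → π ∣ g → π ∣ C D - X ^ p) →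
    ∀ z : EE p D, IsIntegral L[X] z → g • z ∈ Algebra.adjoin L[X] ({(pb p D).gen} : Set (EE p D)) →
    z ∈ Algebra.adjoin L[X] ({(pb p D).gen} : Set (EE p D)) := by
  induction g using UniqueFactorizationMonoid.induction_on_prime with
  | h₁ => exact absurd rfl hg
  | h₂ x hx =>
    intro _ z _ h
    obtain ⟨u, rfl⟩ := hx
    have h1 := Subalgebra.smul_mem _ h ((u⁻¹ : L[X]ˣ) : L[X])
    rwa [smul_smul, Units.inv_mul, one_smul] at h1
  | h₃ a π ha hπ ih =>
    intro h1 z hz h
    have h2 := h1 π hπ (dvd_mul_right _ _)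
    rw [mul_smul] at h
    have h3 := mem_adjoin_of_smul_prime_smul_of_minpoly_isEisensteinAt (K := FractionRing L[X]) (B := pb p D)
      hπ (int_gen p D) (hz.smul a) h (by rw [minpoly_gen']; exact eis' p D hD π hπ h2)
    exact ih ha (fun π' h4 h5 => h1 π' h4 (h5.mul_left _)) z hz h3

/-- elements integral over `L[X]` -/
theorem mem_adj (hD : D ≠ 0) (z : EE p D) (hz : IsIntegral L[X] z) :
    z ∈ Algebra.adjoin L[X] ({(pb p D).gen} : Set (EE p D)) := by
  obtain ⟨c, hc, hd⟩ := discr_eq p D
  have h1 := Algebra.discr_mul_isIntegral_mem_adjoin (R := L[X]) (FractionRing L[X]) (B := pb p D) (int_gen p D) hz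
  rw [hd, algebraMap_smul] at h1
  refine cancel p D hD _ (mul_ne_zero (C_ne_zero.2 hc) (pow_ne_zero _ (rhs_ne p D))) ?_ z hz h1
  intro π hπ h2
  rcases hπ.dvd_or_dvd h2 with h3 | h3
  · exact absurd (isUnit_of_dvd_unit h3 (isUnit_C.2 (isUnit_iff_ne_zero.2 hc))) hπ.not_isUnit
  · exact hπ.dvd_of_dvd_pow h3

/-- the inclusion of the coordinate ring into the field of functions -/
noncomputable def inc : RF p D →+* EE p D :=
  AdjoinRoot.map (algebraMap L[X] (FractionRing L[X])) (fF p D) _ dvd_rfl

theorem inc_YF : inc p D (YF p D) = (pb p D).gen := AdjoinRoot.map_root _ _ _ _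

theorem inc_of (g : L[X]) : inc p D (AdjoinRoot.of (fF p D) g) = algebraMap L[X] (EE p D) g := by
  rw [IsScalarTower.algebraMap_apply L[X] (FractionRing L[X]) (EE p D)]
  exact AdjoinRoot.map_of _ _ _ _ _

theorem ded1' (hD : D ≠ 0) : IsDedekindDomain (RF p D) := by
  have : IsDomain (RF p D) := rf_domain p D hD
  let : Algebra (RF p D) (EE p D) := (inc p D).toAlgebra
  have : IsScalarTower L[X] (RF p D) (EE p D) := IsScalarTower.of_algebraMap_eq fun g => (inc_of p D g).symm
  have : Algebra.IsIntegral L[X] (RF p D) := inferInstance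
  have hinj : Function.Injective (algebraMap (RF p D) (EE p D)) := by
    rw [RingHom.injective_iff_ker_eq_bot]
    apply Ideal.eq_bot_of_comap_eq_bot (R := L[X])
    rw [eq_bot_iff]
    intro g hg
    rw [Ideal.mem_comap, RingHom.mem_ker, ← IsScalarTower.algebraMap_apply L[X] (RF p D) (EE p D),
      IsScalarTower.algebraMap_apply L[X] (FractionRing L[X]) (EE p D)] at hg
    rw [Ideal.mem_bot]
    have h1 := (map_eq_zero_iff _ (algebraMap (FractionRing L[X]) (EE p D)).injective).1 hg
    exact (map_eq_zero_iff _ (IsFractionRing.injective L[X] (FractionRing L[X]))).1 h1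
  have : IsIntegralClosure (RF p D) L[X] (EE p D) := by
    refine ⟨hinj, ?_⟩
    intro z
    constructor
    · intro hz
      have h1 := mem_adj p D hD z hz
      have h2 : Algebra.adjoin L[X] ({(pb p D).gen} : Set (EE p D)) ≤ (IsScalarTower.toAlgHom L[X] (RF p D) (EE p D)).range := by
        refine Algebra.adjoin_le ?_
        rintro _ rfl
        exact ⟨YF p D, inc_YF p D⟩
      obtain ⟨b, hb⟩ := h2 h1
      exact ⟨b, hb⟩
    · rintro ⟨b, rfl⟩
      exact (Algebra.IsIntegral.isIntegral (R := L[X]) b).algebraMap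
  exact IsIntegralClosure.isDedekindDomain L[X] (FractionRing L[X]) (EE p D) (RF p D)

end

theorem ded1 (D : L) (hD : D ≠ 0) : IsDedekindDomain (RF p D) := by
  have : Fact (Irreducible ((fF p D).map (algebraMap L[X] (FractionRing L[X])))) := ⟨irr_map p D hD⟩
  exact ded1' p D hD

end

/-! ## The quotient curves -/

/-- a subring with a retraction of an integrally closed domain -/
theorem ic {A B : Type} [CommRing A] [IsDomain A] [CommRing B] [IsDomain B] [IsIntegrallyClosed B] [Algebra A B]
    (hinj : Function.Injective (algebraMap A B)) (ρ : B →ₗ[A] A) (hρ : ∀ z : A, ρ (algebraMap A B z) = z) :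
    IsIntegrallyClosed A := by
  rw [isIntegrallyClosed_iff (FractionRing A)]
  intro x hx
  have hg : Function.Injective ((algebraMap B (FractionRing B)).comp (algebraMap A B)) :=
    (IsFractionRing.injective B (FractionRing B)).comp hinj
  let j : FractionRing A →+* FractionRing B := IsFractionRing.lift hg
  have hj : ∀ a : A, j (algebraMap A (FractionRing A) a) = algebraMap B (FractionRing B) (algebraMap A B a) :=
    fun a => IsFractionRing.lift_algebraMap hg a
  have h1 : IsIntegral B (j x) := by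
    obtain ⟨f, hf, hx⟩ := hx
    refine ⟨f.map (algebraMap A B), hf.map _, ?_⟩
    rw [eval₂_map]
    have h2 : (algebraMap B (FractionRing B)).comp (algebraMap A B) = j.comp (algebraMap A (FractionRing A)) :=
      RingHom.ext fun a => (hj a).symm
    rw [h2, ← hom_eval₂, hx, map_zero]
  obtain ⟨z, hz⟩ := (isIntegrallyClosed_iff (FractionRing B)).1 inferInstance h1
  obtain ⟨b, c, hc, rfl⟩ := IsFractionRing.div_surjective (A := A) x
  have hc0 : algebraMap A (FractionRing A) c ≠ 0 :=
    (map_ne_zero_iff _ (IsFractionRing.injective A (FractionRing A))).2 (nonZeroDivisors.ne_zero hc)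
  have h3 : c • z = algebraMap A B b := by
    apply IsFractionRing.injective B (FractionRing B)
    rw [Algebra.smul_def, map_mul, ← hj, ← hj, hz, ← map_mul, mul_div_cancel₀ _ hc0]
  refine ⟨ρ z, ?_⟩
  rw [eq_div_iff hc0, ← map_mul]
  congr 1
  have h4 := congrArg ρ h3
  rw [map_smul, hρ, smul_eq_mul] at h4
  rw [mul_comm, h4]

theorem ded (hB : S_BSC) : S_DED := by
  intro p r _ _ L _ _ D hD
  have hdom : IsDomain (BQ p r D) := dom p r L D
  have hrf := ded1 p D hD
  obtain ⟨-, hbas, ⟨ρ, hρ⟩, -⟩ := hB p r L D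
  let : Algebra L[X] (BQ p r D) := (aeval (R := L) (uu p r D)).toRingHom.toAlgebra
  have hst : IsScalarTower L L[X] (BQ p r D) := IsScalarTower.of_algebraMap_eq fun a => by
    change _ = aeval (uu p r D) (C a)
    rw [aeval_C]
  let w : Fin p → BQ p r D := fun i =>
    ⟨XF p D ^ (i : ℕ) * YF p D ^ (r * (i : ℕ) % p), mons_mem p r D (Nat.mod_modEq _ _)⟩
  have hfin : Module.Finite L[X] (BQ p r D) := by
    refine Module.Finite.of_surjective (Fintype.linearCombination L[X] w) ?_
    intro z
    obtain ⟨f, hf, -⟩ := hbas z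
    refine ⟨f, ?_⟩
    rw [Fintype.linearCombination_apply, hf]
    rfl
  have hnoeth : IsNoetherianRing (BQ p r D) := IsNoetherianRing.of_finite L[X] (BQ p r D)
  have hdim : Ring.DimensionLEOne (BQ p r D) := dim1 L (BQ p r D)
  have hic : IsIntegrallyClosed (BQ p r D) := ic Subtype.val_injective ρ hρ
  refine ⟨?_, fun I hI => fd L (BQ p r D) I hI, hrf, fun I hI => fd L (RF p D) I hI⟩
  exact {}

end Pool.Agent.Q299.CF.DED
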