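import Pool.Agent.Q7.CF.Stm

/-!
# Project CF, job DOM: the coordinate ring `BQ p r D` is a domain

`T ↦ v = X Y^r`, `u ↦ X^p` is an injective homomorphism of the domain `L[u][T] / (T^p - u (D - u)^r)` to `RF p D`, and every element of `BQ p r D` multiplied by a power of `D - u = Y^p` is in its image.
-/

set_option autoImplicit false

namespace Pool.Agent.Q299.CF.DOM

open Polynomial Pool.Agent.Q7.CF

set_option linter.unusedSectionVars false

section

variable (p r : ℕ) [Fact p.Prime] {L : Type} [Field L]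

/-- the polynomial `T^p - u (D - u)^r` over `L[u]` -/
noncomputable def gg (D : L) : L[X][X] := X ^ p - C (X * (C D - X) ^ r)

theorem gg_monic (D : L) : (gg p r D).Monic := monic_X_pow_sub_C _ (Fact.out (p := p.Prime)).ne_zero

theorem CDX_deg (D : L) : (C D - X : L[X]).natDegree = 1 := by
  have h : (C D - X : L[X]) = - (X - C D) := by ring
  rw [h, natDegree_neg, natDegree_X_sub_C]

theorem CDX_ne (D : L) : (C D - X : L[X]) ≠ 0 := by
  intro h
  have h1 := CDX_deg D
  rw [h, natDegree_zero] at h1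
  exact zero_ne_one h1

theorem rhs_deg (D : L) : (X * (C D - X) ^ r : L[X]).natDegree = 1 + r := by
  rw [natDegree_mul X_ne_zero (pow_ne_zero _ (CDX_ne D)), natDegree_X, natDegree_pow, CDX_deg, mul_one]

theorem gg_irr [Ok p r] (D : L) : Irreducible (gg p r D) := by
  have hp := (Fact.out (p := p.Prime))
  rw [(gg_monic p r D).irreducible_iff_irreducible_map_fraction_map (K := FractionRing L[X])]
  have h1 : (gg p r D).map (algebraMap L[X] (FractionRing L[X])) =
      X ^ p - C (algebraMap L[X] (FractionRing L[X]) (X * (C D - X) ^ r)) := by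
    unfold gg
    rw [Polynomial.map_sub, Polynomial.map_pow, map_X, map_C]
  rw [h1]
  refine X_pow_sub_C_irreducible_of_prime hp ?_
  intro b hb
  have hint : IsIntegral L[X] b := by
    refine IsIntegral.of_pow hp.pos ?_
    rw [hb]
    exact isIntegral_algebraMap
  obtain ⟨c, hc⟩ := IsIntegrallyClosed.isIntegral_iff.1 hint
  rw [← hc, ← map_pow] at hb
  have h2 := IsFractionRing.injective L[X] (FractionRing L[X]) hb
  have h3 := congrArg natDegree h2
  rw [natDegree_pow, rhs_deg] at h3
  have h4 : p ∣ 1 + r := ⟨_, h3.symm⟩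
  have h5 := Nat.le_of_dvd (by omega) h4
  have h6 := Ok.h2 (p := p) (r := r)
  omega

theorem of_w (D : L) : AdjoinRoot.of (fF p D) (C D - X ^ p) = YF p D ^ p := by
  have h := fermat_eq p D
  have h1 : AdjoinRoot.of (fF p D) (C D - X ^ p) = algebraMap L (RF p D) D - XF p D ^ p := by
    rw [map_sub, map_pow]
    rfl
  rw [h1, ← h]
  ring

/-- the homomorphism `u ↦ X^p` -/
noncomputable def iu (D : L) : L[X] →+* RF p D := (AdjoinRoot.of (fF p D)).comp (expand L p : L[X] →ₐ[L] L[X]).toRingHom

theorem iu_X (D : L) : iu p D X = XF p D ^ p := by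
  change AdjoinRoot.of (fF p D) (expand L p X) = _
  rw [expand_X, map_pow]
  rfl

theorem iu_C (D a : L) : iu p D (C a) = algebraMap L (RF p D) a := by
  change AdjoinRoot.of (fF p D) (expand L p (C a)) = _
  rw [expand_C]
  rfl

theorem iu_w (D : L) : iu p D (C D - X) = YF p D ^ p := by
  rw [map_sub, iu_C, iu_X, ← fermat_eq p D]
  ring

theorem of_inj (D : L) : Function.Injective (AdjoinRoot.of (fF p D)) := by
  refine AdjoinRoot.of.injective_of_degree_ne_zero ?_
  rw [degree_eq_natDegree (fF_monic p D).ne_zero, fF_natDegree]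
  exact_mod_cast (Fact.out (p := p.Prime)).ne_zero

theorem iu_inj (D : L) : Function.Injective (iu p D) :=
  (of_inj p D).comp (expand_injective (Fact.out (p := p.Prime)).pos)

/-- the homomorphism `T ↦ X Y^r` -/
noncomputable def psi (D : L) : AdjoinRoot (gg p r D) →+* RF p D :=
  AdjoinRoot.lift (iu p D) (XF p D * YF p D ^ r) (by
    unfold gg
    rw [eval₂_sub, eval₂_X_pow, eval₂_C, map_mul, map_pow, iu_X, iu_w]
    ring)

theorem psi_root (D : L) : psi p r D (AdjoinRoot.root _) = XF p D * YF p D ^ r := AdjoinRoot.lift_root _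

theorem psi_of (D : L) (g : L[X]) : psi p r D (AdjoinRoot.of _ g) = iu p D g := AdjoinRoot.lift_of _

theorem psi_inj [Ok p r] (D : L) : Function.Injective (psi p r D) := by
  have : IsDomain (AdjoinRoot (gg p r D)) := AdjoinRoot.isDomain_of_prime ((gg_irr p r D).prime)
  have : Module.Finite L[X] (AdjoinRoot (gg p r D)) := (gg_monic p r D).finite_adjoinRoot
  rw [RingHom.injective_iff_ker_eq_bot]
  apply Ideal.eq_bot_of_comap_eq_bot (R := L[X])
  rw [eq_bot_iff]
  intro g hg
  rw [Ideal.mem_comap, RingHom.mem_ker] at hg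
  have h1 : psi p r D (algebraMap L[X] (AdjoinRoot (gg p r D)) g) = iu p D g := psi_of p r D g
  rw [h1] at hg
  exact (map_eq_zero_iff _ (iu_inj p D)).1 hg

/-- a power of `Y^p` times an element of `BQ` is in the image -/
theorem exists_psi (D : L) (z : RF p D) (hz : z ∈ BQ p r D) :
    ∃ (k : ℕ) (s : AdjoinRoot (gg p r D)), psi p r D s = (YF p D ^ p) ^ k * z := by
  have hp := (Fact.out (p := p.Prime))
  unfold BQ at hz
  induction hz using Algebra.adjoin_induction with
  | mem x hx =>
    obtain ⟨a, b, hab, rfl⟩ := hx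
    have h1 : r * a ≤ b + p * (r * a) :=
      (Nat.le_mul_of_pos_left (r * a) hp.pos).trans (Nat.le_add_left _ _)
    have h2 : b + p * (r * a) ≡ r * a [MOD p] := by
      have : b + p * (r * a) ≡ b [MOD p] := by
        change (b + p * (r * a)) % p = b % p
        rw [Nat.add_mul_mod_self_left]
      exact this.trans hab
    obtain ⟨m, hm⟩ := (Nat.modEq_iff_dvd' h1).1 h2.symm
    refine ⟨r * a, AdjoinRoot.root _ ^ a * AdjoinRoot.of _ ((C D - X) ^ m), ?_⟩
    rw [map_mul, map_pow, psi_root, psi_of, map_pow, iu_w]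
    have h3 : b + p * (r * a) = r * a + p * m := by omega
    calc (XF p D * YF p D ^ r) ^ a * (YF p D ^ p) ^ m = XF p D ^ a * YF p D ^ (r * a + p * m) := by
          rw [pow_add, pow_mul, pow_mul]; ring
      _ = XF p D ^ a * YF p D ^ (b + p * (r * a)) := by rw [h3]
      _ = (YF p D ^ p) ^ (r * a) * (XF p D ^ a * YF p D ^ b) := by
          rw [pow_add, pow_mul]; ring
  | algebraMap c =>
    refine ⟨0, AdjoinRoot.of _ (C c), ?_⟩
    rw [psi_of, iu_C, pow_zero, one_mul]
  | add x y _ _ hx hy =>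
    obtain ⟨k, s, hs⟩ := hx
    obtain ⟨l, t, ht⟩ := hy
    refine ⟨k + l, AdjoinRoot.of _ ((C D - X) ^ l) * s + AdjoinRoot.of _ ((C D - X) ^ k) * t, ?_⟩
    rw [map_add, map_mul, map_mul, psi_of, psi_of, map_pow, map_pow, iu_w, hs, ht]
    ring
  | mul x y _ _ hx hy =>
    obtain ⟨k, s, hs⟩ := hx
    obtain ⟨l, t, ht⟩ := hy
    refine ⟨k + l, s * t, ?_⟩
    rw [map_mul, hs, ht]
    ring

theorem w_reg (D : L) (k : ℕ) (z : RF p D) (h : (YF p D ^ p) ^ k * z = 0) : z = 0 := by
  have hf : Module.Free L[X] (RF p D) := (fF_monic p D).free_adjoinRoot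
  have h0 : (C D - X ^ p : L[X]) ≠ 0 := by
    intro h
    have h1 : (iu p D (C D - X)) = 0 := by
      rw [iu_w, ← of_w, h, map_zero]
    exact CDX_ne D ((map_eq_zero_iff _ (iu_inj p D)).1 h1)
  have h2 : ((C D - X ^ p : L[X]) ^ k) • z = 0 := by
    rw [Algebra.smul_def]
    have : algebraMap L[X] (RF p D) ((C D - X ^ p) ^ k) = (YF p D ^ p) ^ k := by
      rw [map_pow]
      exact congrArg (· ^ k) (of_w p D)
    rw [this, h]
  rcases smul_eq_zero.1 h2 with h3 | h3
  · exact absurd h3 (pow_ne_zero _ h0)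
  · exact h3

end

theorem dom : S_DOM := by
  intro p r _ _ L _ D
  have hdom : IsDomain (AdjoinRoot (gg p r D)) := AdjoinRoot.isDomain_of_prime ((gg_irr p r D).prime)
  have hnt : Nontrivial (RF p D) := (of_inj p D).nontrivial
  have hnz : NoZeroDivisors (BQ p r D) := by
    refine ⟨fun {a b} hab => ?_⟩
    obtain ⟨k, s, hs⟩ := exists_psi p r D a.1 a.2
    obtain ⟨l, t, ht⟩ := exists_psi p r D b.1 b.2
    have hab' : (a : RF p D) * (b : RF p D) = 0 := congrArg Subtype.val hab
    have h1 : psi p r D (s * t) = 0 := by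
      rw [map_mul, hs, ht]
      calc (YF p D ^ p) ^ k * (a : RF p D) * ((YF p D ^ p) ^ l * (b : RF p D)) =
          (YF p D ^ p) ^ k * (YF p D ^ p) ^ l * ((a : RF p D) * (b : RF p D)) := by ring
        _ = 0 := by rw [hab', mul_zero]
    have h2 := (map_eq_zero_iff _ (psi_inj p r D)).1 h1
    rcases mul_eq_zero.1 h2 with h3 | h3
    · left
      rw [h3, map_zero] at hs
      exact Subtype.ext (w_reg p D k _ hs.symm)
    · right
      rw [h3, map_zero] at ht
      exact Subtype.ext (w_reg p D l _ ht.symm)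
  exact NoZeroDivisors.to_isDomain _

end Pool.Agent.Q299.CF.DOM
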